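import Mathlib

/-!
# Weak rainbow saturation numbers of cliques: `rwsat(n, K_r) ≤ (r - 1) n + C(r)`

Start from a complete core on `M = 6 (r - 1)` vertices, join every vertex to `r - 1` fixed core
vertices, and give all these edges different colours.  First add the missing pairs between the core
and the other vertices: the new colour agrees with at most one old colour, so one of the `r - 1`
fixed core vertices can be dropped.  Then every colour occurs at most twice, once on an initial and
once on an added edge, and a greedy choice of `r - 2` core vertices completes every remaining pair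
to a rainbow `K_r`.
-/

namespace Pool.Agent.Results.MP_d10f6f_co.WeakRainbow

/-- The graph `G + e_0 + ... + e_i`. -/
def stage {n m : ℕ} (G : SimpleGraph (Fin n)) (e : Fin m → Sym2 (Fin n)) (i : Fin m) :
    SimpleGraph (Fin n) :=
  G ⊔ SimpleGraph.fromEdgeSet {g | ∃ j ≤ i, e j = g}

/-- The colours of the pairs: the pair `e j` has colour `c j`, every other pair (in particular each
edge of the initial graph) keeps its colour under `χ`. -/
noncomputable def colour {n m : ℕ} (χ : Sym2 (Fin n) → ℕ) (e : Fin m → Sym2 (Fin n))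
    (c : Fin m → ℕ) : Sym2 (Fin n) → ℕ :=
  Function.extend e c χ

/-- The coloured graph `(G, χ)` is weakly `K_r`-rainbow saturated in `K_n`: there is an ordering
`e` of the missing edges such that for all choices `c` of pairwise distinct colours each added edge
`e i` lies in a rainbow `K_r` of `G + e_0 + ... + e_i`. -/
def WeaklySat (r : ℕ) {n : ℕ} (G : SimpleGraph (Fin n)) (χ : Sym2 (Fin n) → ℕ) : Prop :=
  ∃ (m : ℕ) (e : Fin m → Sym2 (Fin n)), Function.Injective e ∧ Set.range e = Gᶜ.edgeSet ∧
    ∀ c : Fin m → ℕ, Function.Injective c → ∀ i : Fin m,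
      ∃ S : Finset (Fin n), (stage G e i).IsNClique r S ∧ (∀ x ∈ e i, x ∈ S) ∧
        Set.InjOn (colour χ e c) {g | g ∈ (stage G e i).edgeSet ∧ ∀ x ∈ g, x ∈ S}

/-- The weak rainbow saturation number `rwsat(n, K_r)`. -/
noncomputable def rwsat (n r : ℕ) : ℕ :=
  sInf {k | ∃ (G : SimpleGraph (Fin n)) (χ : Sym2 (Fin n) → ℕ),
    WeaklySat r G χ ∧ G.edgeSet.ncard = k}

/-- Greedy independent sets: if every element forbids at most two others, a set of at least `5 k`
elements contains `k` elements none of which forbids another one. -/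
lemma indep {α : Type*} [DecidableEq α] (g : α → Finset α) (hg : ∀ x, (g x).card ≤ 2) :
    ∀ (k : ℕ) (A : Finset α), 5 * k ≤ A.card →
      ∃ W ⊆ A, W.card = k ∧ ∀ x ∈ W, ∀ y ∈ W, y ≠ x → y ∉ g x := by
  intro k
  induction k with
  | zero => intro A _; exact ⟨∅, by simp, by simp, by simp⟩
  | succ k ih =>
    intro A hA
    have hne : A.Nonempty := by
      rw [← Finset.card_pos]; omega
    have hsum : ∑ x ∈ A, (A.filter (fun y => x ∈ g y)).card ≤ ∑ x ∈ A, 2 := by
      have h1 : ∑ x ∈ A, (A.filter (fun y => x ∈ g y)).card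
          = ∑ y ∈ A, (A.filter (fun x => x ∈ g y)).card := by
        simp only [Finset.card_filter]
        exact Finset.sum_comm
      rw [h1]
      refine Finset.sum_le_sum fun y _ => le_trans (Finset.card_le_card ?_) (hg y)
      intro x hx
      exact (Finset.mem_filter.mp hx).2
    obtain ⟨x, hxA, hx⟩ := Finset.exists_le_of_sum_le hne hsum
    set B := A \ (insert x (g x ∪ A.filter (fun y => x ∈ g y))) with hB
    have hcard : 5 * k ≤ B.card := by
      have h2 : A.card - (insert x (g x ∪ A.filter (fun y => x ∈ g y))).card ≤ B.card :=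
        Finset.le_card_sdiff _ _
      have h3 : (insert x (g x ∪ A.filter (fun y => x ∈ g y))).card ≤ 5 := by
        refine le_trans (Finset.card_insert_le _ _) ?_
        have := Finset.card_union_le (g x) (A.filter (fun y => x ∈ g y))
        have := hg x
        omega
      omega
    obtain ⟨W, hWB, hWk, hW⟩ := ih B hcard
    have hxW : x ∉ W := by
      intro h
      have := hWB h
      simp [hB] at this
    refine ⟨insert x W, ?_, ?_, ?_⟩
    · intro y hy
      rcases Finset.mem_insert.mp hy with rfl | hy
      · exact hxA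
      · exact (Finset.mem_sdiff.mp (hWB hy)).1
    · rw [Finset.card_insert_of_notMem hxW, hWk]
    · intro y hy z hz hzy
      rcases Finset.mem_insert.mp hy with hy' | hy'
      · rcases Finset.mem_insert.mp hz with hz' | hz'
        · exact absurd (hz'.trans hy'.symm) hzy
        · intro hmem
          have := hWB hz'
          rw [hy'] at hmem
          simp [hB, hmem] at this
      · rcases Finset.mem_insert.mp hz with hz' | hz'
        · intro hmem
          have := hWB hy'
          rw [hz'] at hmem
          simp only [hB, Finset.mem_sdiff, Finset.mem_insert, Finset.mem_union,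
            Finset.mem_filter, not_or, not_and] at this
          exact this.2.2.2 this.1 hmem
        · exact hW y hy' z hz' hzy

/-- The initial graph. -/
def base (n r M : ℕ) : SimpleGraph (Fin n) where
  Adj u v := u ≠ v ∧ ((u.val < M ∧ v.val < M) ∨ u.val < r - 1 ∨ v.val < r - 1)
  symm := ⟨fun u v h => ⟨h.1.symm, by tauto⟩⟩
  loopless := ⟨fun u h => h.1 rfl⟩

lemma base_adj {n r M : ℕ} {u v : Fin n} : (base n r M).Adj u v ↔
    u ≠ v ∧ ((u.val < M ∧ v.val < M) ∨ u.val < r - 1 ∨ v.val < r - 1) := Iff.rfl

lemma base_card (n r M : ℕ) : (base n r M).edgeSet.ncard ≤ (r - 1) * n + M * M := by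
  classical
  set A : Finset (Fin n) := Finset.univ.filter (fun x => x.val < r - 1) with hA
  set B : Finset (Fin n) := Finset.univ.filter (fun x => x.val < M) with hB
  have hcA : A.card ≤ r - 1 := by
    have : (A.image (fun x : Fin n => x.val)).card ≤ (Finset.range (r - 1)).card := by
      apply Finset.card_le_card
      intro y hy
      simp only [hA, Finset.mem_image, Finset.mem_filter, Finset.mem_univ, true_and] at hy
      obtain ⟨x, hx, rfl⟩ := hy
      simpa using hx
    rwa [Finset.card_image_of_injective _ Fin.val_injective, Finset.card_range] at this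
  have hcB : B.card ≤ M := by
    have : (B.image (fun x : Fin n => x.val)).card ≤ (Finset.range M).card := by
      apply Finset.card_le_card
      intro y hy
      simp only [hB, Finset.mem_image, Finset.mem_filter, Finset.mem_univ, true_and] at hy
      obtain ⟨x, hx, rfl⟩ := hy
      simpa using hx
    rwa [Finset.card_image_of_injective _ Fin.val_injective, Finset.card_range] at this
  have hsub : (base n r M).edgeSet ⊆
      (((A ×ˢ Finset.univ).image (fun p : Fin n × Fin n => s(p.1, p.2)) ∪
        (B ×ˢ B).image (fun p : Fin n × Fin n => s(p.1, p.2)) : Finset (Sym2 (Fin n))) :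
          Set (Sym2 (Fin n))) := by
    intro g hg
    induction g using Sym2.ind with
    | h u v =>
      rw [SimpleGraph.mem_edgeSet, base_adj] at hg
      simp only [Finset.coe_union, Finset.coe_image, Set.mem_union, Set.mem_image,
        Finset.mem_coe, Finset.mem_product, Prod.exists, hA, hB, Finset.mem_filter,
        Finset.mem_univ, true_and, and_true]
      rcases hg.2 with h | h | h
      · right; exact ⟨u, v, h, rfl⟩
      · left; exact ⟨u, v, h, rfl⟩
      · left; exact ⟨v, u, h, Sym2.eq_swap⟩
  have h1 := Set.ncard_le_ncard hsub (Finset.finite_toSet _)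
  rw [Set.ncard_coe_finset] at h1
  refine h1.trans ((Finset.card_union_le _ _).trans ?_)
  have h2 : ((A ×ˢ Finset.univ).image (fun p : Fin n × Fin n => s(p.1, p.2))).card
      ≤ (r - 1) * n := by
    refine Finset.card_image_le.trans ?_
    rw [Finset.card_product, Finset.card_univ, Fintype.card_fin]
    exact Nat.mul_le_mul_right _ hcA
  have h3 : ((B ×ˢ B).image (fun p : Fin n × Fin n => s(p.1, p.2))).card ≤ M * M := by
    refine Finset.card_image_le.trans ?_
    rw [Finset.card_product]
    exact Nat.mul_le_mul hcB hcB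
  omega

/-- Ordering a finite set along a numerical phase. -/
lemma exists_order {β : Type*} (F : Finset β) (φ : β → ℕ) :
    ∃ e : Fin F.card → β, Function.Injective e ∧ Set.range e = (F : Set β) ∧
      Monotone (φ ∘ e) := by
  classical
  let e₀ : Fin F.card ≃ F := F.equivFin.symm
  let f : Fin F.card → ℕ := fun i => φ (e₀ i)
  refine ⟨fun i => (e₀ (Tuple.sort f i) : β), ?_, ?_, ?_⟩
  · intro i j h
    exact (Tuple.sort f).injective (e₀.injective (Subtype.ext h))
  · ext x
    constructor
    · rintro ⟨i, rfl⟩
      exact (e₀ (Tuple.sort f i)).2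
    · intro hx
      refine ⟨(Tuple.sort f).symm (e₀.symm ⟨x, hx⟩), ?_⟩
      simp
  · exact Tuple.monotone_sort f

lemma stage_adj {n m : ℕ} {G : SimpleGraph (Fin n)} {e : Fin m → Sym2 (Fin n)} {i : Fin m}
    {u v : Fin n} : (stage G e i).Adj u v ↔ G.Adj u v ∨ ((∃ j ≤ i, e j = s(u, v)) ∧ u ≠ v) := by
  simp [stage]

/-- The construction works. -/
lemma weaklySat (n r : ℕ) (hr : 3 ≤ r) (χ : Sym2 (Fin n) → ℕ) (hχ : Function.Injective χ) :
    WeaklySat r (base n r (6 * (r - 1))) χ := by
  classical
  set M := 6 * (r - 1) with hM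
  set G := base n r M with hG
  set F : Finset (Sym2 (Fin n)) := Finset.univ.filter (fun g => g ∈ Gᶜ.edgeSet) with hF
  let φ : Sym2 (Fin n) → ℕ := fun g => if ∀ x ∈ g, M ≤ x.val then 1 else 0
  obtain ⟨e, he, hrange, hmono⟩ := exists_order F φ
  have hrange' : Set.range e = Gᶜ.edgeSet := by
    rw [hrange]; ext g; simp [hF]
  refine ⟨F.card, e, he, hrange', ?_⟩
  intro c hc i
  -- colours of initial and added pairs
  have hcolI : ∀ g ∈ G.edgeSet, colour χ e c g = χ g := by
    intro g hg
    refine Function.extend_apply' _ _ _ ?_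
    rintro ⟨j, hj⟩
    have : g ∈ Gᶜ.edgeSet := by rw [← hrange']; exact ⟨j, hj⟩
    induction g using Sym2.ind with
    | h u v =>
      rw [SimpleGraph.mem_edgeSet] at hg this
      rw [SimpleGraph.compl_adj] at this
      exact this.2 hg
  have hcolA : ∀ j, colour χ e c (e j) = c j := fun j => he.extend_apply _ _ _
  have hnon : ∀ u v : Fin n, u ≠ v → ¬ G.Adj u v → ∃ j, e j = s(u, v) := by
    intro u v huv h
    have : s(u, v) ∈ Set.range e := by
      rw [hrange', SimpleGraph.mem_edgeSet, SimpleGraph.compl_adj]
      exact ⟨huv, h⟩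
    exact this
  -- the added pair
  have hi : e i ∈ Gᶜ.edgeSet := by rw [← hrange']; exact ⟨i, rfl⟩
  -- the fixed core vertices
  obtain ⟨u, v, huv, hadj, hei, hv⟩ : ∃ u v : Fin n, u ≠ v ∧ ¬ G.Adj u v ∧ e i = s(u, v) ∧
      M ≤ v.val := by
    revert hi
    generalize hg : e i = g
    induction g using Sym2.ind with
    | h u v =>
      intro hi
      rw [SimpleGraph.mem_edgeSet, SimpleGraph.compl_adj] at hi
      by_cases hv : M ≤ v.val
      · exact ⟨u, v, hi.1, hi.2, rfl, hv⟩
      · refine ⟨v, u, hi.1.symm, fun h => hi.2 h.symm, Sym2.eq_swap, ?_⟩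
        by_contra hu
        exact hi.2 ⟨hi.1, Or.inl ⟨by omega, by omega⟩⟩
  have hu1 : r - 1 ≤ u.val := by
    by_contra h
    exact hadj ⟨huv, Or.inr (Or.inl (by omega))⟩
  have hn : M < n := lt_of_le_of_lt hv v.2
  set P : Finset (Fin n) := Finset.univ.filter (fun x => x.val < r - 1) with hP
  have hcardlt : ∀ k ≤ n, (Finset.univ.filter (fun x : Fin n => x.val < k)).card = k := by
    intro k hk
    rw [← Finset.card_image_of_injective _ Fin.val_injective]
    have : (Finset.univ.filter (fun x : Fin n => x.val < k)).image (fun x : Fin n => x.val)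
        = Finset.range k := by
      ext y
      simp only [Finset.mem_image, Finset.mem_filter, Finset.mem_univ, true_and,
        Finset.mem_range]
      constructor
      · rintro ⟨x, hx, rfl⟩; exact hx
      · intro hy; exact ⟨⟨y, by omega⟩, hy, rfl⟩
    rw [this, Finset.card_range]
  have hPcard : P.card = r - 1 := hcardlt _ (by omega)
  by_cases hu : u.val < M
  · -- a pair between the core and an outer vertex
    obtain ⟨w, hwP, hw⟩ : ∃ w ∈ P, ∀ g ∈ G.edgeSet, (∀ x ∈ g, x = u ∨ x = v ∨ x ∈ P) →
        χ g = c i → w ∈ g := by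
      by_cases h : ∃ g ∈ G.edgeSet, (∀ x ∈ g, x = u ∨ x = v ∨ x ∈ P) ∧ χ g = c i
      · obtain ⟨g, hg, hgP, hgc⟩ := h
        have : ∃ w ∈ P, w ∈ g := by
          induction g using Sym2.ind with
          | h a b =>
            rw [SimpleGraph.mem_edgeSet] at hg
            have ha := hgP a (by simp)
            have hb := hgP b (by simp)
            rcases ha with rfl | rfl | ha
            · rcases hb with rfl | rfl | hb
              · exact absurd rfl hg.1
              · exact absurd hg hadj
              · exact ⟨b, hb, by simp⟩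
            · rcases hb with rfl | rfl | hb
              · exact absurd hg.symm hadj
              · exact absurd rfl hg.1
              · exact ⟨b, hb, by simp⟩
            · exact ⟨a, ha, by simp⟩
        obtain ⟨w, hwP, hwg⟩ := this
        refine ⟨w, hwP, fun g' hg' _ hgc' => ?_⟩
        rwa [hχ (hgc'.trans hgc.symm)]
      · have hne : P.Nonempty := by
          rw [← Finset.card_pos]; omega
        obtain ⟨w, hwP⟩ := hne
        exact ⟨w, hwP, fun g hg h1 h2 => absurd ⟨g, hg, h1, h2⟩ h⟩
    have huP : u ∉ P := by simp [hP]; omega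
    have hvP : v ∉ P := by simp [hP]; omega
    refine ⟨insert u (insert v (P.erase w)), ?_, ?_, ?_⟩
    · rw [SimpleGraph.isNClique_iff]
      constructor
      · intro x hx y hy hxy
        rw [stage_adj]
        simp only [Finset.coe_insert, Set.mem_insert_iff, Finset.mem_coe, Finset.mem_erase, hP,
          Finset.mem_filter, Finset.mem_univ, true_and] at hx hy
        rcases hx with rfl | rfl | hx
        · rcases hy with rfl | rfl | hy
          · exact absurd rfl hxy
          · exact Or.inr ⟨⟨i, le_rfl, hei⟩, hxy⟩
          · exact Or.inl ⟨hxy, Or.inr (Or.inr hy.2)⟩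
        · rcases hy with rfl | rfl | hy
          · exact Or.inr ⟨⟨i, le_rfl, hei.trans Sym2.eq_swap⟩, hxy⟩
          · exact absurd rfl hxy
          · exact Or.inl ⟨hxy, Or.inr (Or.inr hy.2)⟩
        · exact Or.inl ⟨hxy, Or.inr (Or.inl hx.2)⟩
      · rw [Finset.card_insert_of_notMem, Finset.card_insert_of_notMem,
          Finset.card_erase_of_mem hwP, hPcard]
        · omega
        · simp [hvP]
        · simp [huP, huv]
    · intro x hx
      rw [hei, Sym2.mem_iff] at hx
      rcases hx with rfl | rfl <;> simp
    · -- rainbow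
      have key : ∀ g, (g ∈ (stage G e i).edgeSet ∧
          ∀ x ∈ g, x ∈ insert u (insert v (P.erase w))) →
          g = e i ∨ (g ∈ G.edgeSet ∧ χ g ≠ c i) := by
        intro g hg
        have hmem : ∀ x ∈ g, x = u ∨ x = v ∨ (x ≠ w ∧ x ∈ P) := by
          intro x hx
          have := hg.2 x hx
          simpa using this
        have hPP : ∀ x ∈ g, x = u ∨ x = v ∨ x ∈ P := fun x hx => by
          rcases hmem x hx with h | h | h
          · exact Or.inl h
          · exact Or.inr (Or.inl h)
          · exact Or.inr (Or.inr h.2)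
        have hwg : w ∉ g := by
          intro h
          rcases hmem w h with rfl | rfl | h
          · exact huP hwP
          · exact hvP hwP
          · exact h.1 rfl
        have hGg : g ∈ G.edgeSet ∨ g = e i := by
          revert hPP hg
          clear hmem hwg
          induction g using Sym2.ind with
          | h a b =>
            intro hg hPP
            have hab : a ≠ b := by
              have := hg.1
              rw [SimpleGraph.mem_edgeSet] at this
              exact this.ne
            rw [SimpleGraph.mem_edgeSet]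
            have ha := hPP a (by simp)
            have hb := hPP b (by simp)
            simp only [hP, Finset.mem_filter, Finset.mem_univ, true_and] at ha hb
            rcases ha with rfl | rfl | ha
            · rcases hb with rfl | rfl | hb
              · exact absurd rfl hab
              · exact Or.inr hei.symm
              · exact Or.inl ⟨hab, Or.inr (Or.inr hb)⟩
            · rcases hb with rfl | rfl | hb
              · exact Or.inr (hei.trans Sym2.eq_swap).symm
              · exact absurd rfl hab
              · exact Or.inl ⟨hab, Or.inr (Or.inr hb)⟩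
            · exact Or.inl ⟨hab, Or.inr (Or.inl ha)⟩
        rcases hGg with h | h
        · exact Or.inr ⟨h, fun h' => hwg (hw g h hPP h')⟩
        · exact Or.inl h
      intro g₁ h₁ g₂ h₂ h12
      rcases key g₁ h₁ with rfl | ⟨k₁, k₁'⟩
      · rcases key g₂ h₂ with rfl | ⟨k₂, k₂'⟩
        · rfl
        · rw [hcolA, hcolI _ k₂] at h12
          exact absurd h12.symm k₂'
      · rcases key g₂ h₂ with rfl | ⟨k₂, k₂'⟩
        · rw [hcolA, hcolI _ k₁] at h12
          exact absurd h12 k₁'
        · rw [hcolI _ k₁, hcolI _ k₂] at h12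
          exact hχ h12
  · -- two outer vertices
    push Not at hu
    have hh : ∀ (k : ℕ) (x : Fin n), ∃ y : Fin n, ∀ g ∈ G.edgeSet, χ g = k → y ∈ g ∧ y ≠ x := by
      intro k x
      by_cases h : ∃ g ∈ G.edgeSet, χ g = k
      · obtain ⟨g, hg, hgk⟩ := h
        have : ∃ y, y ∈ g ∧ y ≠ x := by
          clear hgk
          induction g using Sym2.ind with
          | h a b =>
            rw [SimpleGraph.mem_edgeSet] at hg
            by_cases hax : a = x
            · exact ⟨b, by simp, fun hb => hg.1 (hax.trans hb.symm)⟩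
            · exact ⟨a, by simp, hax⟩
        obtain ⟨y, hy⟩ := this
        refine ⟨y, fun g' _ hg'k => ?_⟩
        rwa [hχ (hg'k.trans hgk.symm)]
      · exact ⟨x, fun g hg hgk => absurd ⟨g, hg, hgk⟩ h⟩
    choose h hspec using hh
    set g₀ : Fin n → Finset (Fin n) := fun x =>
      {h (colour χ e c s(u, x)) x, h (colour χ e c s(v, x)) x} with hg₀
    have hg₀card : ∀ x, (g₀ x).card ≤ 2 := fun x => Finset.card_le_two
    set a := h (c i) u with ha
    set A : Finset (Fin n) := ((Finset.univ.filter (fun x : Fin n => x.val < M)) \ P).erase a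
      with hA
    have hAcard : 5 * (r - 2) ≤ A.card := by
      have h1 : (Finset.univ.filter (fun x : Fin n => x.val < M)).card - P.card ≤
          ((Finset.univ.filter (fun x : Fin n => x.val < M)) \ P).card :=
        Finset.le_card_sdiff _ _
      rw [hcardlt M hn.le, hPcard] at h1
      have h2 : ((Finset.univ.filter (fun x : Fin n => x.val < M)) \ P).card - 1 ≤ A.card :=
        Finset.pred_card_le_card_erase
      omega
    obtain ⟨W, hWA, hWcard, hW⟩ := indep g₀ hg₀card (r - 2) A hAcard
    have hWspec : ∀ x ∈ W, x ≠ a ∧ x.val < M ∧ r - 1 ≤ x.val := by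
      intro x hx
      have := hWA hx
      simp only [hA, Finset.mem_erase, Finset.mem_sdiff, Finset.mem_filter, Finset.mem_univ,
        true_and, hP, not_lt] at this
      exact this
    have huW : u ∉ W := fun hx => by have := (hWspec u hx).2.1; omega
    have hvW : v ∉ W := fun hx => by have := (hWspec v hx).2.1; omega
    have hearly : ∀ z x : Fin n, M ≤ z.val → x.val < M → r - 1 ≤ x.val →
        ∃ j ≤ i, e j = s(z, x) := by
      intro z x hz hx hx'
      have hzx : z ≠ x := fun hzx => by rw [hzx] at hz; omega
      obtain ⟨j, hj⟩ := hnon z x hzx (by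
        rintro ⟨_, h | h | h⟩
        · omega
        · omega
        · omega)
      refine ⟨j, ?_, hj⟩
      by_contra hji
      push Not at hji
      have hm := hmono hji.le
      have h1 : φ (e i) = 1 := by
        simp only [φ]
        rw [if_pos]
        intro y hy
        rw [hei, Sym2.mem_iff] at hy
        rcases hy with rfl | rfl <;> assumption
      have h2 : φ (e j) = 0 := by
        simp only [φ]
        rw [if_neg]
        intro hall
        have := hall x (by rw [hj]; simp)
        omega
      simp only [Function.comp] at hm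
      omega
    refine ⟨insert u (insert v W), ?_, ?_, ?_⟩
    · rw [SimpleGraph.isNClique_iff]
      constructor
      · intro x hx y hy hxy
        rw [stage_adj]
        simp only [Finset.coe_insert, Set.mem_insert_iff, Finset.mem_coe] at hx hy
        rcases hx with rfl | rfl | hx
        · rcases hy with rfl | rfl | hy
          · exact absurd rfl hxy
          · exact Or.inr ⟨⟨i, le_rfl, hei⟩, hxy⟩
          · have := hWspec y hy
            exact Or.inr ⟨hearly _ _ hu this.2.1 this.2.2, hxy⟩
        · rcases hy with rfl | rfl | hy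
          · exact Or.inr ⟨⟨i, le_rfl, hei.trans Sym2.eq_swap⟩, hxy⟩
          · exact absurd rfl hxy
          · have := hWspec y hy
            exact Or.inr ⟨hearly _ _ hv this.2.1 this.2.2, hxy⟩
        · have hx' := hWspec x hx
          rcases hy with rfl | rfl | hy
          · have := hearly _ _ hu hx'.2.1 hx'.2.2
            rw [Sym2.eq_swap] at this
            exact Or.inr ⟨this, hxy⟩
          · have := hearly _ _ hv hx'.2.1 hx'.2.2
            rw [Sym2.eq_swap] at this
            exact Or.inr ⟨this, hxy⟩
          · exact Or.inl ⟨hxy, Or.inl ⟨hx'.2.1, (hWspec y hy).2.1⟩⟩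
      · rw [Finset.card_insert_of_notMem, Finset.card_insert_of_notMem hvW, hWcard]
        · omega
        · simp [huW, huv]
    · intro x hx
      rw [hei, Sym2.mem_iff] at hx
      rcases hx with rfl | rfl <;> simp
    · -- rainbow
      have key : ∀ g, (g ∈ (stage G e i).edgeSet ∧ ∀ x ∈ g, x ∈ insert u (insert v W)) →
          (g ∈ G.edgeSet ∧ ∀ x ∈ g, x ∈ W) ∨
          (g = e i) ∨ (∃ x ∈ W, ∃ j, e j = g ∧ (g = s(u, x) ∨ g = s(v, x))) := by
        intro g hg
        obtain ⟨hg1, hg2⟩ := hg
        induction g using Sym2.ind with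
        | h x y =>
          rw [SimpleGraph.mem_edgeSet] at hg1
          have hxy := hg1.ne
          have hx : x = u ∨ x = v ∨ x ∈ W := by simpa using hg2 x (by simp)
          have hy : y = u ∨ y = v ∨ y ∈ W := by simpa using hg2 y (by simp)
          rcases hx with rfl | rfl | hx
          · rcases hy with rfl | rfl | hy
            · exact absurd rfl hxy
            · exact Or.inr (Or.inl hei.symm)
            · have := hWspec y hy
              obtain ⟨j, _, hj⟩ := hearly _ _ hu this.2.1 this.2.2
              exact Or.inr (Or.inr ⟨y, hy, j, hj, Or.inl rfl⟩)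
          · rcases hy with rfl | rfl | hy
            · exact Or.inr (Or.inl (hei.trans Sym2.eq_swap).symm)
            · exact absurd rfl hxy
            · have := hWspec y hy
              obtain ⟨j, _, hj⟩ := hearly _ _ hv this.2.1 this.2.2
              exact Or.inr (Or.inr ⟨y, hy, j, hj, Or.inr rfl⟩)
          · have hx' := hWspec x hx
            rcases hy with rfl | rfl | hy
            · obtain ⟨j, _, hj⟩ := hearly _ _ hu hx'.2.1 hx'.2.2
              rw [Sym2.eq_swap]
              exact Or.inr (Or.inr ⟨x, hx, j, hj, Or.inl rfl⟩)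
            · obtain ⟨j, _, hj⟩ := hearly _ _ hv hx'.2.1 hx'.2.2
              rw [Sym2.eq_swap]
              exact Or.inr (Or.inr ⟨x, hx, j, hj, Or.inr rfl⟩)
            · refine Or.inl ⟨?_, ?_⟩
              · rw [SimpleGraph.mem_edgeSet]
                exact ⟨hxy, Or.inl ⟨hx'.2.1, (hWspec y hy).2.1⟩⟩
              · intro z hz
                rw [Sym2.mem_iff] at hz
                rcases hz with rfl | rfl <;> assumption
      -- no initial edge inside `W` has the colour of an added one
      have hsep : ∀ g₁ g₂, (g₁ ∈ G.edgeSet ∧ ∀ x ∈ g₁, x ∈ W) →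
          ((g₂ = e i) ∨ (∃ x ∈ W, ∃ j, e j = g₂ ∧ (g₂ = s(u, x) ∨ g₂ = s(v, x)))) →
          colour χ e c g₁ ≠ colour χ e c g₂ := by
        intro g₁ g₂ h₁ h₂ heq
        rw [hcolI _ h₁.1] at heq
        rcases h₂ with rfl | ⟨x, hx, j, hj, h₂⟩
        · rw [hcolA] at heq
          have := (hspec (c i) u g₁ h₁.1 heq).1
          exact (hWspec _ (h₁.2 _ this)).1 ha.symm
        · rcases h₂ with rfl | rfl
          · have h3 := hspec _ x g₁ h₁.1 heq
            exact hW x hx _ (h₁.2 _ h3.1) h3.2 (by simp [hg₀])
          · have h3 := hspec _ x g₁ h₁.1 heq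
            exact hW x hx _ (h₁.2 _ h3.1) h3.2 (by simp [hg₀])
      have hadded : ∀ g, ((g = e i) ∨ (∃ x ∈ W, ∃ j, e j = g ∧ (g = s(u, x) ∨ g = s(v, x)))) →
          ∃ j, e j = g := by
        rintro g (rfl | ⟨x, hx, j, hj, _⟩)
        · exact ⟨i, rfl⟩
        · exact ⟨j, hj⟩
      intro g₁ h₁ g₂ h₂ h12
      rcases key g₁ h₁ with k₁ | k₁
      · rcases key g₂ h₂ with k₂ | k₂
        · rw [hcolI _ k₁.1, hcolI _ k₂.1] at h12
          exact hχ h12
        · exact absurd h12 (hsep g₁ g₂ k₁ k₂)
      · rcases key g₂ h₂ with k₂ | k₂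
        · exact absurd h12.symm (hsep g₂ g₁ k₂ k₁)
        · obtain ⟨j₁, rfl⟩ := hadded g₁ k₁
          obtain ⟨j₂, rfl⟩ := hadded g₂ k₂
          rw [hcolA, hcolA] at h12
          rw [hc h12]

lemma bound (r : ℕ) (hr : 3 ≤ r) (n : ℕ) :
    rwsat n r ≤ (r - 1) * n + 6 * (r - 1) * (6 * (r - 1)) := by
  obtain ⟨χ, hχ⟩ := exists_injective_nat (Sym2 (Fin n))
  have hmem : (base n r (6 * (r - 1))).edgeSet.ncard ∈
      {k | ∃ (G : SimpleGraph (Fin n)) (χ : Sym2 (Fin n) → ℕ),
        WeaklySat r G χ ∧ G.edgeSet.ncard = k} :=
    ⟨base n r (6 * (r - 1)), χ, weaklySat n r hr χ hχ, rfl⟩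
  exact (Nat.sInf_le hmem).trans (base_card n r _)

/-- **Main theorem.**  For every `r ≥ 3` there are constants `C` and `n₀` with
`rwsat(n, K_r) ≤ r n + C` for all `n ≥ n₀`; indeed `rwsat(n, K_r) ≤ (r - 1) n + C` for all `n`. -/
theorem result :
    (∀ r : ℕ, 3 ≤ r → ∃ C n₀ : ℕ, ∀ n : ℕ, n₀ ≤ n → rwsat n r ≤ r * n + C) ∧
    (∀ r : ℕ, 3 ≤ r → ∃ C : ℕ, ∀ n : ℕ,
      (∃ (G : SimpleGraph (Fin n)) (χ : Sym2 (Fin n) → ℕ),
        WeaklySat r G χ ∧ G.edgeSet.ncard = rwsat n r) ∧
      rwsat n r ≤ (r - 1) * n + C) := by
  refine ⟨fun r hr => ⟨6 * (r - 1) * (6 * (r - 1)), 0, fun n _ => ?_⟩,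
    fun r hr => ⟨6 * (r - 1) * (6 * (r - 1)), fun n => ⟨?_, bound r hr n⟩⟩⟩
  · refine (bound r hr n).trans ?_
    gcongr
    omega
  · obtain ⟨χ, hχ⟩ := exists_injective_nat (Sym2 (Fin n))
    have hne : {k | ∃ (G : SimpleGraph (Fin n)) (χ : Sym2 (Fin n) → ℕ),
        WeaklySat r G χ ∧ G.edgeSet.ncard = k}.Nonempty :=
      ⟨_, base n r (6 * (r - 1)), χ, weaklySat n r hr χ hχ, rfl⟩
    exact Nat.sInf_mem hne

end Pool.Agent.Results.MP_d10f6f_co.WeakRainbow
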